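import Mathlib
import Pool.Agent.Lib.MP_3b60c8_lc.FFin

/-! In every model `(M, ∈)` of `ZF + DC + AD` (hence, by the completeness theorem, as a theorem of
`ZF + DC + AD`): for every prewellordering `L` of the reals with length `l` and rank map `g`, every
nonempty `l`-splitting tree has a nonempty `l`-splitting subtree which is projective in `L`. -/

namespace Pool.Agent.Results.MP_3b60c8_lc.StrongCoding

open Pool.Agent.Lib.MP_f5c99b_lc Pool.Agent.Lib.MP_7b07e0_lc Pool.Agent.Lib.MP_3b60c8_lc

universe u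

theorem result (M : Type u) [Membership M M] (hM : IsModelOfZF M) (hDC : DependentChoice M)
    (hAD : AD M) :
    (∃ w R Q : M, IsOmega w ∧ IsBaire w R ∧ IsFinSeqs w Q R) ∧
    ∀ w R Q L g l T : M, IsOmega w → IsBaire w R → IsFinSeqs w Q R →
      IsPrewellordering R L g l → IsSplittingTree w R Q g l T → (∃ q : M, q ∈ T) →
      ∃ T' : M, Incl T' T ∧ (∃ q : M, q ∈ T') ∧ IsSplittingTree w R Q g l T' ∧
        IsProjectiveIn w L T' := by
  have : Fact (IsModelOfZF M) := ⟨hM⟩
  refine ⟨⟨omega M, BB M, fseq (BB M), isOmega_iff.mpr rfl, isBaire_iff.mpr rfl,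
    isFinSeqs_iff.mpr rfl⟩, ?_⟩
  intro w R Q L g l T hw hR hQ hL hT hne
  exact full_main M hM hDC hAD w R Q L g l T hw hR hQ hL hT hne

end Pool.Agent.Results.MP_3b60c8_lc.StrongCoding
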